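import Pool.Agent.Helper26.RP.Goals

open Finset

namespace RP.PkCRL

theorem nx_symm {a b c d : E} (h : NX a b c d) : NX c d a b := by
  rcases h with (h | h | h | h) | h
  · exact Or.inl (Or.inl h.symm)
  · exact Or.inl (Or.inr (Or.inr (Or.inl h.symm)))
  · exact Or.inl (Or.inr (Or.inl h.symm))
  · exact Or.inl (Or.inr (Or.inr (Or.inr h.symm)))
  · exact Or.inr h.symm

theorem nx_self (a b : E) : NX a b a b := Or.inl (Or.inl rfl)

/-- Number of colourings with `c a = c b`. -/
theorem card2 {n k : ℕ} (a b : Fin n) (hab : a ≠ b) :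
    k ^ n ≤ ((univ : Finset (Fin n → Fin k)).filter fun c => c a = c b).card * k := by
  classical
  have h1 : k ^ n = (univ : Finset (Fin n → Fin k)).card := by simp
  have h2 : ((univ : Finset (Fin n → Fin k)).filter fun c => c a = c b).card * k =
      (((univ : Finset (Fin n → Fin k)).filter fun c => c a = c b) ×ˢ
        (univ : Finset (Fin k))).card := by
    rw [card_product]; simp
  rw [h1, h2]
  refine card_le_card_of_injOn (fun c => (Function.update c b (c a), c b)) ?_ ?_
  · intro c _
    simp [Function.update_of_ne hab]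
  · intro c _ c' _ h
    simp only [Prod.mk.injEq] at h
    funext v
    by_cases hv : v = b
    · rw [hv]; exact h.2
    · have := congrFun h.1 v
      rwa [Function.update_of_ne hv, Function.update_of_ne hv] at this

/-- Number of colourings with `c a = c b = c p = c q`. -/
theorem card4 {n k : ℕ} (a b p q : Fin n) (hab : a ≠ b) (hap : a ≠ p) (haq : a ≠ q) (hbp : b ≠ p)
    (hbq : b ≠ q) (hpq : p ≠ q) :
    ((univ : Finset (Fin n → Fin k)).filter fun c => c a = c b ∧ c a = c p ∧ c a = c q).card
      * k ^ 3 ≤ k ^ n := by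
  classical
  have h1 : k ^ n = (univ : Finset (Fin n → Fin k)).card := by simp
  have h2 : ((univ : Finset (Fin n → Fin k)).filter fun c =>
      c a = c b ∧ c a = c p ∧ c a = c q).card * k ^ 3 =
      (((univ : Finset (Fin n → Fin k)).filter fun c => c a = c b ∧ c a = c p ∧ c a = c q) ×ˢ
        (univ : Finset (Fin k × Fin k × Fin k))).card := by
    rw [card_product]
    simp only [card_univ, Fintype.card_prod, Fintype.card_fin]
    ring
  rw [h1, h2]
  refine card_le_card_of_injOn (fun z => Function.update (Function.update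
    (Function.update z.1 b z.2.1) p z.2.2.1) q z.2.2.2) (fun _ _ => mem_coe.mpr (mem_univ _)) ?_
  rintro ⟨c, u, v, w⟩ hc ⟨c', u', v', w'⟩ hc' h
  simp only [coe_product, coe_filter, mem_univ, true_and, coe_univ, Set.mem_prod,
    Set.mem_ofPred_eq, Set.mem_univ, and_true] at hc hc'
  have hw : w = w' := by
    have := congrFun h q
    simpa using this
  have hv : v = v' := by
    have := congrFun h p
    simpa [Function.update_of_ne hpq] using this
  have hu : u = u' := by
    have := congrFun h b
    simpa [Function.update_of_ne hbq, Function.update_of_ne hbp] using this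
  have ha : c a = c' a := by
    have := congrFun h a
    simpa [Function.update_of_ne haq, Function.update_of_ne hap, Function.update_of_ne hab]
      using this
  have hcc : c = c' := by
    funext t
    by_cases h1 : t = q
    · rw [h1, ← hc.2.2, ← hc'.2.2, ha]
    by_cases h2 : t = p
    · rw [h2, ← hc.2.1, ← hc'.2.1, ha]
    by_cases h3 : t = b
    · rw [h3, ← hc.1, ← hc'.1, ha]
    have := congrFun h t
    simpa [Function.update_of_ne h1, Function.update_of_ne h2, Function.update_of_ne h3] using this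
  rw [hcc, hu, hv, hw]

open Classical in
/-- The number of conflicts. -/
noncomputable def XX {n : ℕ} (x : Fin n → E) (G : Finset (Fin n × Fin n)) : ℕ :=
  ((G ×ˢ G).filter fun z => ¬ NX (x z.1.1) (x z.1.2) (x z.2.1) (x z.2.2)).card

open Classical in
theorem edge_bound (e3n : G_E3N) {n : ℕ} (x : Fin n → E) (hx : GP x)
    (hinj : Function.Injective fun i => (x i).1) (T : Finset (Fin n)) :
    ∀ (m : ℕ) (G : Finset (Fin n × Fin n)), G.card = m →
      (∀ e ∈ G, (x e.1).1 < (x e.2).1 ∧ e.1 ∈ T ∧ e.2 ∈ T) → 2 * G.card ≤ XX x G + 6 * T.card := by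
  intro m
  induction m with
  | zero =>
    intro G hG _
    omega
  | succ m ih =>
    intro G hG hT
    by_cases h : ∀ e ∈ G, ∀ f ∈ G, NX (x e.1) (x e.2) (x f.1) (x f.2)
    · have := e3n n x hx hinj G T hT h
      omega
    · push Not at h
      obtain ⟨e, he, f, hf, hef⟩ := h
      have h1 : (G.erase e).card = m := by rw [card_erase_of_mem he, hG]; rfl
      have h2 := ih (G.erase e) h1 fun g hg => hT g (mem_of_mem_erase hg)
      have hne : e ≠ f := by
        rintro rfl
        exact hef (nx_self _ _)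
      have h3 : XX x (G.erase e) + 2 ≤ XX x G := by
        unfold XX
        have h4 : ((e, f) : (Fin n × Fin n) × (Fin n × Fin n)) ≠ (f, e) := by
          intro h5
          exact hne (Prod.mk.inj h5).1
        have h5 : ({(e, f), (f, e)} : Finset ((Fin n × Fin n) × (Fin n × Fin n))).card = 2 :=
          card_pair h4
        rw [← h5, ← card_union_of_disjoint]
        · refine card_le_card ?_
          intro z hz
          simp only [mem_union, mem_filter, mem_product, mem_insert, mem_singleton] at hz ⊢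
          rcases hz with ⟨⟨h6, h7⟩, h8⟩ | rfl | rfl
          · exact ⟨⟨mem_of_mem_erase h6, mem_of_mem_erase h7⟩, h8⟩
          · exact ⟨⟨he, hf⟩, hef⟩
          · exact ⟨⟨hf, he⟩, fun h9 => hef (nx_symm h9)⟩
        · rw [disjoint_left]
          intro z hz hz'
          simp only [mem_filter, mem_product, mem_erase, mem_insert, mem_singleton] at hz hz'
          rcases hz' with rfl | rfl
          · exact hz.1.1.1 rfl
          · exact hz.1.2.1 rfl
      have h6 : (G.erase e).card + 1 = G.card := card_erase_add_one he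
      omega

/-- Double counting. -/
theorem dc {C I α : Type} [Fintype C] [Fintype I] (S : Finset α) (P : C → I → α → Prop)
    (R : C → α → Prop) [∀ c i a, Decidable (P c i a)] [∀ c a, Decidable (R c a)]
    (h : ∀ c, ∀ a ∈ S, ((univ : Finset I).filter fun i => P c i a).card = if R c a then 1 else 0) :
    ∑ c : C, ∑ i : I, (S.filter fun a => P c i a).card =
      ∑ a ∈ S, ((univ : Finset C).filter fun c => R c a).card := by
  have e1 : ∀ c : C, ∑ i : I, (S.filter fun a => P c i a).card = ∑ a ∈ S, if R c a then 1 else 0 := by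
    intro c
    simp_rw [card_filter]
    rw [sum_comm]
    refine sum_congr rfl fun a ha => ?_
    rw [← h c a ha, card_filter]
  simp_rw [e1]
  rw [sum_comm]
  refine sum_congr rfl fun a _ => ?_
  rw [card_filter]

open Classical in
theorem main_ineq (e3n : G_E3N) {n : ℕ} (x : Fin n → E) (hx : GP x)
    (hinj : Function.Injective fun i => (x i).1) (F : Finset (Fin n × Fin n))
    (hF : ∀ e ∈ F, (x e.1).1 < (x e.2).1) (k : ℕ) (hk : 1 ≤ k) :
    2 * F.card * k ^ 2 ≤ XX x F + 6 * n * k ^ 3 := by
  have hkn : 0 < k ^ n := Nat.pow_pos hk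
  have hne : ∀ e ∈ F, e.1 ≠ e.2 := by
    intro e he h3
    have := hF e he
    rw [h3] at this
    exact lt_irrefl _ this
  -- for one colouring and one colour
  have h1 : ∀ (c : Fin n → Fin k) (i : Fin k),
      2 * (F.filter fun e => c e.1 = i ∧ c e.2 = i).card ≤
        XX x (F.filter fun e => c e.1 = i ∧ c e.2 = i) + 6 * (univ.filter fun v => c v = i).card := by
    intro c i
    refine edge_bound e3n x hx hinj (univ.filter fun v => c v = i) _ _ rfl ?_
    intro e he
    simp only [mem_filter, mem_univ, true_and] at he ⊢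
    exact ⟨hF e he.1, he.2.1, he.2.2⟩
  -- sum
  have h2 : ∑ c : Fin n → Fin k, ∑ i : Fin k,
      2 * (F.filter fun e => c e.1 = i ∧ c e.2 = i).card ≤
      ∑ c : Fin n → Fin k, ∑ i : Fin k,
        (XX x (F.filter fun e => c e.1 = i ∧ c e.2 = i) +
          6 * (univ.filter fun v => c v = i).card) :=
    sum_le_sum fun c _ => sum_le_sum fun i _ => h1 c i
  simp_rw [← mul_sum, sum_add_distrib, ← mul_sum] at h2
  -- left side
  have hL : F.card * k ^ n ≤ (∑ c : Fin n → Fin k, ∑ i : Fin k,
      (F.filter fun e => c e.1 = i ∧ c e.2 = i).card) * k := by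
    have e1 : ∑ c : Fin n → Fin k, ∑ i : Fin k, (F.filter fun e => c e.1 = i ∧ c e.2 = i).card =
        ∑ e ∈ F, ((univ : Finset (Fin n → Fin k)).filter fun c => c e.1 = c e.2).card := by
      refine dc F (fun (c : Fin n → Fin k) (i : Fin k) e => c e.1 = i ∧ c e.2 = i)
        (fun c e => c e.1 = c e.2) ?_
      intro c e _
      split_ifs with h3
      · rw [card_eq_one]
        refine ⟨c e.1, ?_⟩
        ext i
        simp only [mem_filter, mem_univ, true_and, mem_singleton]
        constructor
        · exact fun h4 => h4.1.symm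
        · rintro rfl
          exact ⟨rfl, h3.symm⟩
      · rw [card_eq_zero, filter_eq_empty_iff]
        rintro i _ ⟨h4, h5⟩
        exact h3 (h4.trans h5.symm)
    rw [e1, sum_mul]
    calc F.card * k ^ n = ∑ e ∈ F, k ^ n := by rw [sum_const, smul_eq_mul]
      _ ≤ _ := sum_le_sum fun e he => card2 _ _ (hne e he)
  -- vertices
  have hV : ∑ c : Fin n → Fin k, ∑ i : Fin k, (univ.filter fun v => c v = i).card = n * k ^ n := by
    rw [dc univ (fun (c : Fin n → Fin k) (i : Fin k) v => c v = i) (fun _ _ => True)]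
    · simp
    · intro c v _
      simp only [if_true]
      rw [card_eq_one]
      exact ⟨c v, by ext i; simp [eq_comm]⟩
  -- conflicts
  have hX : (∑ c : Fin n → Fin k, ∑ i : Fin k,
      XX x (F.filter fun e => c e.1 = i ∧ c e.2 = i)) * k ^ 3 ≤ XX x F * k ^ n := by
    set D := (F ×ˢ F).filter fun z => ¬ NX (x z.1.1) (x z.1.2) (x z.2.1) (x z.2.2) with hD
    have e0 : ∀ (c : Fin n → Fin k) (i : Fin k), XX x (F.filter fun e => c e.1 = i ∧ c e.2 = i) =
        (D.filter fun z => (c z.1.1 = i ∧ c z.1.2 = i) ∧ (c z.2.1 = i ∧ c z.2.2 = i)).card := by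
      intro c i
      unfold XX
      congr 1
      ext z
      simp only [hD, mem_filter, mem_product]
      tauto
    have e1 : ∑ c : Fin n → Fin k, ∑ i : Fin k, XX x (F.filter fun e => c e.1 = i ∧ c e.2 = i) =
        ∑ z ∈ D, ((univ : Finset (Fin n → Fin k)).filter fun c =>
          c z.1.1 = c z.1.2 ∧ c z.1.1 = c z.2.1 ∧ c z.1.1 = c z.2.2).card := by
      simp_rw [e0]
      refine dc D (fun (c : Fin n → Fin k) (i : Fin k) z =>
        (c z.1.1 = i ∧ c z.1.2 = i) ∧ (c z.2.1 = i ∧ c z.2.2 = i))
        (fun c z => c z.1.1 = c z.1.2 ∧ c z.1.1 = c z.2.1 ∧ c z.1.1 = c z.2.2) ?_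
      intro c z _
      split_ifs with h3
      · rw [card_eq_one]
        refine ⟨c z.1.1, ?_⟩
        ext i
        simp only [mem_filter, mem_univ, true_and, mem_singleton]
        constructor
        · exact fun h4 => h4.1.1.symm
        · rintro rfl
          exact ⟨⟨rfl, h3.1.symm⟩, h3.2.1.symm, h3.2.2.symm⟩
      · rw [card_eq_zero, filter_eq_empty_iff]
        rintro i _ ⟨⟨h4, h5⟩, h6, h7⟩
        exact h3 ⟨h4.trans h5.symm, h4.trans h6.symm, h4.trans h7.symm⟩
    have e2 : XX x F = D.card := rfl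
    rw [e1, e2, sum_mul]
    calc _ ≤ ∑ z ∈ D, k ^ n := sum_le_sum fun z hz => by
          simp only [hD, mem_filter, mem_product] at hz
          obtain ⟨⟨hz1, hz2⟩, hz3⟩ := hz
          refine card4 _ _ _ _ (hne _ hz1) ?_ ?_ ?_ ?_ (hne _ hz2)
          · intro h; exact hz3 (Or.inl (Or.inl (by rw [h])))
          · intro h; exact hz3 (Or.inl (Or.inr (Or.inl (by rw [h]))))
          · intro h; exact hz3 (Or.inl (Or.inr (Or.inr (Or.inl (by rw [h])))))
          · intro h; exact hz3 (Or.inl (Or.inr (Or.inr (Or.inr (by rw [h])))))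
      _ = D.card * k ^ n := by rw [sum_const, smul_eq_mul]
  rw [hV] at h2
  refine Nat.le_of_mul_le_mul_right ?_ hkn
  calc 2 * F.card * k ^ 2 * k ^ n = 2 * k ^ 2 * (F.card * k ^ n) := by ring
    _ ≤ 2 * k ^ 2 * ((∑ c : Fin n → Fin k, ∑ i : Fin k,
      (F.filter fun e => c e.1 = i ∧ c e.2 = i).card) * k) := Nat.mul_le_mul_left _ hL
    _ = (2 * ∑ c : Fin n → Fin k, ∑ i : Fin k,
      (F.filter fun e => c e.1 = i ∧ c e.2 = i).card) * k ^ 3 := by ring
    _ ≤ _ := Nat.mul_le_mul_right _ h2
    _ = (∑ c : Fin n → Fin k, ∑ i : Fin k,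
      XX x (F.filter fun e => c e.1 = i ∧ c e.2 = i)) * k ^ 3 + 6 * (n * k ^ n) * k ^ 3 := by ring
    _ ≤ XX x F * k ^ n + 6 * (n * k ^ n) * k ^ 3 := Nat.add_le_add_right hX _
    _ = (XX x F + 6 * n * k ^ 3) * k ^ n := by ring

theorem crl : G_E3N → G_CRL := by
  intro e3n n x hx hinj F hF hn
  classical
  have hmain := main_ineq e3n x hx hinj F hF
  have hXX : XX x F = ((F ×ˢ F).filter fun z =>
    ¬ NX (x z.1.1) (x z.1.2) (x z.2.1) (x z.2.2)).card := rfl
  rcases Nat.eq_zero_or_pos n with rfl | hn0
  · have : F = ∅ := by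
      ext e
      exact e.1.elim0
    rw [this]
    simp
  have h6n : 0 < 6 * n := by omega
  set k := F.card / (6 * n) with hk
  have hk1 : 1 ≤ k := (Nat.one_le_div_iff h6n).mpr hn
  have hk2 : 6 * n * k ≤ F.card := Nat.mul_div_le _ _
  have hk3 : F.card < 6 * n * (k + 1) := by
    have := Nat.lt_mul_div_succ F.card h6n
    exact this
  have hk4 : F.card ≤ 12 * n * k := by nlinarith
  have h1 := hmain k hk1
  have h2 : F.card * k ^ 2 ≤ XX x F := by
    have h3 : 6 * n * k ^ 3 ≤ F.card * k ^ 2 := by
      calc 6 * n * k ^ 3 = (6 * n * k) * k ^ 2 := by ring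
        _ ≤ F.card * k ^ 2 := Nat.mul_le_mul_right _ hk2
    nlinarith
  calc F.card ^ 3 = F.card * F.card ^ 2 := by ring
    _ ≤ F.card * (12 * n * k) ^ 2 := Nat.mul_le_mul_left _ (Nat.pow_le_pow_left hk4 2)
    _ = 144 * n ^ 2 * (F.card * k ^ 2) := by ring
    _ ≤ 144 * n ^ 2 * XX x F := Nat.mul_le_mul_left _ h2
    _ = _ := by rw [hXX]

end RP.PkCRL
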