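import Pool.Agent.Helper43.RP.Goals
import Pool.Agent.Helper69.LG.ME

/-!
Packet RP-LOGR: the size of the rough part of a factorial.
-/

set_option autoImplicit false

open Finset Pool.Agent.Helper22.FSU

namespace Pool.Agent.Helper3.RP.LOGR

open Pool.Agent.Helper43.RP

theorem val_mul_le (n q : ℕ) (hq : q.Prime) :
    ((n.factorial.factorization q : ℕ) : ℝ) * ((q : ℝ) - 1) ≤ n := by
  rw [Nat.factorization_def _ hq]
  have : Fact q.Prime := ⟨hq⟩
  have h := sub_one_mul_padicValNat_factorial (p := q) n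
  have h1 : (q - 1) * padicValNat q n.factorial ≤ n := by
    rw [h]
    exact Nat.sub_le _ _
  have h2 : (((q - 1 : ℕ) : ℝ)) * (padicValNat q n.factorial : ℝ) ≤ n := by exact_mod_cast h1
  rw [Nat.cast_sub hq.one_le, Nat.cast_one] at h2
  linarith [h2, mul_comm (((q : ℝ) - 1)) (padicValNat q n.factorial : ℝ)]

theorem term_le (q : ℕ) (hq : 2 ≤ q) :
    Real.log q / ((q : ℝ) - 1) ≤ Real.log q / q + 4 * (1 / (q : ℝ) ^ (3 / 2 : ℝ)) := by
  have hq2 : (2 : ℝ) ≤ q := by exact_mod_cast hq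
  have hq0 : (0 : ℝ) < q := by linarith
  have hl : Real.log q ≤ 2 * (q : ℝ) ^ (1 / 2 : ℝ) := by
    have := Real.log_le_rpow_div hq0.le (ε := 1 / 2) (by norm_num)
    linarith
  have hl0 : 0 ≤ Real.log q := Real.log_nonneg (by linarith)
  have hq1 : (q : ℝ) - 1 ≠ 0 := by linarith
  have e1 : Real.log q / ((q : ℝ) - 1) = Real.log q / q + Real.log q / (q * ((q : ℝ) - 1)) := by
    rw [div_add_div _ _ hq0.ne' (mul_ne_zero hq0.ne' hq1),
      div_eq_div_iff hq1 (mul_ne_zero hq0.ne' (mul_ne_zero hq0.ne' hq1))]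
    ring
  rw [e1]
  have e2 : (q : ℝ) ^ (3 / 2 : ℝ) * (q : ℝ) ^ (1 / 2 : ℝ) = (q : ℝ) ^ 2 := by
    rw [← Real.rpow_add hq0]
    norm_num
  have e3 : Real.log q / (q * ((q : ℝ) - 1)) ≤ 4 * (1 / (q : ℝ) ^ (3 / 2 : ℝ)) := by
    have h3 : 0 < (q : ℝ) ^ (3 / 2 : ℝ) := Real.rpow_pos_of_pos hq0 _
    rw [mul_one_div, div_le_div_iff₀ (mul_pos hq0 (by linarith)) h3]
    have h4 : Real.log q * (q : ℝ) ^ (3 / 2 : ℝ) ≤ 2 * (q : ℝ) ^ 2 := by
      calc Real.log q * (q : ℝ) ^ (3 / 2 : ℝ)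
          ≤ 2 * (q : ℝ) ^ (1 / 2 : ℝ) * (q : ℝ) ^ (3 / 2 : ℝ) := by gcongr
        _ = 2 * (q : ℝ) ^ 2 := by rw [mul_assoc, mul_comm ((q : ℝ) ^ (1 / 2 : ℝ)), e2]
    nlinarith
  linarith

theorem sum_bound : ∃ C : ℝ, 0 ≤ C ∧ ∀ a : ℕ, 1 ≤ a →
    ∑ q ∈ (Icc 1 a).filter Nat.Prime, Real.log q / ((q : ℝ) - 1) ≤ Real.log a + C := by
  obtain ⟨C, hC, hA⟩ := Pool.Agent.Helper69.LG.A_bound
  have hs : Summable fun q : ℕ => 1 / (q : ℝ) ^ (3 / 2 : ℝ) :=
    Real.summable_one_div_nat_rpow.mpr (by norm_num)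
  have hnn : ∀ q : ℕ, 0 ≤ 1 / (q : ℝ) ^ (3 / 2 : ℝ) := fun q => by positivity
  refine ⟨C + 4 * ∑' q : ℕ, 1 / (q : ℝ) ^ (3 / 2 : ℝ), ?_, fun a ha => ?_⟩
  · have : 0 ≤ ∑' q : ℕ, 1 / (q : ℝ) ^ (3 / 2 : ℝ) := tsum_nonneg hnn
    linarith
  · have h1 : ∑ q ∈ (Icc 1 a).filter Nat.Prime, Real.log q / ((q : ℝ) - 1) ≤
        ∑ q ∈ (Icc 1 a).filter Nat.Prime,
          (Real.log q / q + 4 * (1 / (q : ℝ) ^ (3 / 2 : ℝ))) :=
      Finset.sum_le_sum fun q hq => term_le q (Finset.mem_filter.mp hq).2.two_le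
    rw [Finset.sum_add_distrib, ← Finset.mul_sum] at h1
    have h2 := hs.sum_le_tsum ((Icc 1 a).filter Nat.Prime) (fun q _ => hnn q)
    have h3 := (abs_le.mp (hA a ha)).2
    have h4 : ∑ q ∈ (Icc 1 a).filter Nat.Prime, Real.log (q : ℝ) / q =
        Pool.Agent.Helper69.LG.A a := by
      unfold Pool.Agent.Helper69.LG.A
      refine Finset.sum_congr ?_ fun _ _ => rfl
      ext q
      simp
    linarith

theorem log_fact (n : ℕ) : Real.log (n.factorial : ℝ) =
    ∑ q ∈ (Icc 1 n).filter Nat.Prime, ((n.factorial.factorization q : ℕ) : ℝ) * Real.log q := by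
  have hn : n.factorial ≠ 0 := n.factorial_ne_zero
  have h1 : n.factorial = ∏ q ∈ (Icc 1 n).filter Nat.Prime, q ^ n.factorial.factorization q := by
    conv_lhs => rw [← Nat.prod_factorization_pow_eq_self hn]
    refine Finset.prod_subset ?_ ?_
    · intro q hq
      have hqp : q.Prime := Nat.prime_of_mem_primeFactors hq
      have hqd : q ∣ n.factorial := Nat.dvd_of_mem_primeFactors hq
      rw [Finset.mem_filter, Finset.mem_Icc]
      exact ⟨⟨hqp.one_le, (hqp.dvd_factorial).mp hqd⟩, hqp⟩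
    · intro q _ hq
      rw [Nat.support_factorization] at hq
      have : n.factorial.factorization q = 0 := by
        by_contra h
        exact hq (by rw [← Nat.support_factorization]; exact Finsupp.mem_support_iff.mpr h)
      rw [this]
      exact pow_zero q
  have h2 : (n.factorial : ℝ) =
      ∏ q ∈ (Icc 1 n).filter Nat.Prime, (q : ℝ) ^ n.factorial.factorization q := by
    exact_mod_cast h1
  rw [h2, Real.log_prod]
  · refine Finset.sum_congr rfl fun q _ => ?_
    rw [Real.log_pow]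
  · intro q hq
    have := (Finset.mem_filter.mp hq).2.pos
    positivity

theorem t : Pool.Agent.Helper43.RP.LOGR := by
  obtain ⟨C, hC, hB⟩ := sum_bound
  refine ⟨C + 1, by linarith, fun a n ha han => ?_⟩
  have hn1 : 1 ≤ n := ha.trans han
  have hfac : (0 : ℝ) < n.factorial := by exact_mod_cast n.factorial_pos
  have h1 : (n : ℝ) * Real.log n - n ≤ Real.log (n.factorial : ℝ) := by
    rw [Real.le_log_iff_exp_le hfac]
    exact fact_lower n hn1
  have h2 : Real.log (RR a n : ℝ) =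
      ∑ q ∈ (Ioc a n).filter Nat.Prime, ((n.factorial.factorization q : ℕ) : ℝ) * Real.log q := by
    unfold RR
    rw [Nat.cast_prod, Real.log_prod]
    · refine Finset.sum_congr rfl fun q _ => ?_
      rw [Nat.cast_pow, Real.log_pow]
    · intro q hq
      have := (Finset.mem_filter.mp hq).2.pos
      positivity
  have h3 : Real.log (n.factorial : ℝ) =
      ∑ q ∈ (Icc 1 a).filter Nat.Prime, ((n.factorial.factorization q : ℕ) : ℝ) * Real.log q +
      Real.log (RR a n : ℝ) := by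
    rw [log_fact, h2, ← Finset.sum_union]
    · refine Finset.sum_congr ?_ fun _ _ => rfl
      ext q
      simp only [Finset.mem_filter, Finset.mem_union, Finset.mem_Icc, Finset.mem_Ioc]
      constructor
      · rintro ⟨⟨k1, k2⟩, k3⟩
        by_cases h : q ≤ a
        · exact Or.inl ⟨⟨k1, h⟩, k3⟩
        · exact Or.inr ⟨⟨by omega, k2⟩, k3⟩
      · rintro (⟨⟨k1, k2⟩, k3⟩ | ⟨⟨k1, k2⟩, k3⟩)
        · exact ⟨⟨k1, by omega⟩, k3⟩
        · exact ⟨⟨by omega, k2⟩, k3⟩
    · rw [Finset.disjoint_left]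
      intro q hq1 hq2
      simp only [Finset.mem_filter, Finset.mem_Icc, Finset.mem_Ioc] at hq1 hq2
      omega
  have h4 : ∑ q ∈ (Icc 1 a).filter Nat.Prime,
      ((n.factorial.factorization q : ℕ) : ℝ) * Real.log q ≤ n * (Real.log a + C) := by
    calc ∑ q ∈ (Icc 1 a).filter Nat.Prime,
        ((n.factorial.factorization q : ℕ) : ℝ) * Real.log q
        ≤ ∑ q ∈ (Icc 1 a).filter Nat.Prime, (n : ℝ) * (Real.log q / ((q : ℝ) - 1)) := by
          refine Finset.sum_le_sum fun q hq => ?_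
          have hqp := (Finset.mem_filter.mp hq).2
          have hq2 : (2 : ℝ) ≤ q := by exact_mod_cast hqp.two_le
          have hl0 : 0 ≤ Real.log q := Real.log_nonneg (by linarith)
          have hv := val_mul_le n q hqp
          rw [← mul_div_assoc, le_div_iff₀ (by linarith)]
          nlinarith
      _ = n * ∑ q ∈ (Icc 1 a).filter Nat.Prime, Real.log q / ((q : ℝ) - 1) := by
          rw [Finset.mul_sum]
      _ ≤ n * (Real.log a + C) := by
          have := hB a ha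
          gcongr
  have h5 : (n : ℝ) * (Real.log n - Real.log a - (C + 1)) =
      ((n : ℝ) * Real.log n - n) - n * (Real.log a + C) := by ring
  rw [h5]
  linarith

end Pool.Agent.Helper3.RP.LOGR
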